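import Pool.Agent.Work.MP_ffcd14_ag.Tr.A5

/-!
# The standard conjecture of Hodge type for totally degenerate abelian varieties

`X = G_m ^ g / Λ` is an abelian variety over a complete algebraically closed non-archimedean field
of characteristic `p`, which is uniformised by a torus.  The conjecture holds in all codimensions,
in the Chow ring modulo numerical equivalence.
-/

open Pool.Agent.Work.MP_ffcd14_ag Pool.Agent.Work.MP_10f4af_ag

universe u

theorem Pool.Agent.Results.MP_ffcd14_ag.DegenerateAbelian.result
    {K : Type u} [NontriviallyNormedField K] [IsUltrametricDist K] [CompleteSpace K]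
    [IsAlgClosed K] (p : ℕ) [Fact p.Prime] [CharP K p]
    (hΓ : (Set.range fun c : K => ‖c‖).Countable) {P : Amb} (X : SV K P)
    (hX : Nonempty (Tr.Unif X)) (f : MvPolynomial P.V K) (a : P.ι →₀ ℕ) (hf : IsForm f a)
    (ha : ∀ i, 0 < a i) (h : ∃ x ∈ X.pts, ev x f ≠ 0) (n : ℕ) (hn : 2 * n ≤ X.dim) :
    Chw.Hodge X (Chw.sec X f) n :=
  Tr.main p hΓ hX hf ha h n hn
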