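import Pool.Agent.Work.MP_ffcd14_ag.Cyc.T2

/-!
# The standard conjecture of Hodge type in codimension two descends along surjective morphisms

`f : Y → X` is surjective between smooth projective varieties of the same dimension; it may
contract subvarieties.  The Lefschetz hypothesis `hL` is empty for fourfolds.
-/

open Pool.Agent.Work.MP_ffcd14_ag

universe u v w

theorem Pool.Agent.Work.MP_ffcd14_ag.Parked.Descent.result
    {k : Type u} {K : Type v} [Field k] [IsAlgClosed k] [Field K] [CharZero K]
    (C : Weil.{u, v, w} k K) (hC : C.Chow) {P Q : Amb} (Y : Var k Q) (X : Var k P)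
    (hY : IsIrreducible Y.pts) (hd : Y.dim = X.dim) (h4 : 4 ≤ X.dim)
    (f : Hom Y X) (hf : Function.Surjective f.toFun)
    (H : ∀ L, C.Ample Y L → Hdg (C.tr Y) Y.dim (C.A Y) L 2)
    (l : C.H X) (hl : C.Ample X l)
    (hL : ∀ y ∈ C.A X (X.dim - 2), ∃ x ∈ C.A X 2, y = l ^ (X.dim - 4) * x) :
    Hdg (C.tr X) X.dim (C.A X) l 2 :=
  descent_main hC Y X hY hd h4 f hf H l hl hL
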