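import Pool.Agent.Work.MP_ffcd14_ag.Main

/-!
# The standard conjecture of Hodge type does not depend on the polarisation

`A` is any graded rational subalgebra of the algebraic classes of `X` containing the two ample
classes: all algebraic classes, or those of cycles defined over a subfield of `k`.
-/

open Pool.Agent.Work.MP_ffcd14_ag

universe u v w

theorem Pool.Agent.Work.MP_ffcd14_ag.Parked.PolarizationIndependence.result
    {k : Type u} {K : Type v} [Field k] [IsAlgClosed k] [Field K] [CharZero K]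
    (C : WeilL.{u, v, w} k K) {P : Amb} (X : Var k P)
    (A : ℕ → AddSubgroup (C.H X)) (hA : ∀ c, ∀ x ∈ A c, IsAlg K (C.cl X) c x)
    (hmul : ∀ c c', ∀ x ∈ A c, ∀ y ∈ A c', x * y ∈ A (c + c'))
    (hq : ∀ c (q : ℚ), ∀ x ∈ A c, (q : K) • x ∈ A c)
    (l l' : C.H X) (hl : C.Ample X l) (hl' : C.Ample X l') (h1 : l ∈ A 1) (h1' : l' ∈ A 1)
    (hL : LefA X.dim A l) (n : ℕ) (hn : 2 * n ≤ X.dim) :
    Hdg (C.tr X) X.dim A l n ↔ Hdg (C.tr X) X.dim A l' n :=
  main C.isWeil X A hA hmul hq l l' (C.ample hl) (C.ample hl') h1 h1' hL n hn
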