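import Pool.Agent.Work.MP_ffcd14_ag.Sec.S1

/-!
# The standard conjecture of Hodge type in codimension two when a section is uniruled

`S` is obtained from `X` by one or more transversal sections with forms of degree `a`; it is a
uniruled fourfold.  The conclusion holds for every ample class `l` of `X`.
-/

open Pool.Agent.Work.MP_ffcd14_ag

universe u v w

theorem Pool.Agent.Results.MP_ffcd14_ag.UniruledSection.result
    {k : Type u} {K : Type v} [Field k] [IsAlgClosed k] [Field K] [CharZero K]
    (C : WeilL.{u, v, w} k K) (hC : C.toWeil.Chow) {P : Amb} (S X : Var k P)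
    (hX : IsIrreducible X.pts) (a : P.ι →₀ ℕ) (ha : ∀ i, 0 < a i)
    (h : Relation.TransGen (fun Y Z : Var k P => ∃ j : Hom Y Z, IsSec j a) S X)
    (hd : S.dim = 4) (hU : Uniruled S) (hL : LefA X.dim (C.A X) (lin (C.hyp X) a))
    (l : C.H X) (hl : C.Ample X l) : Hdg (C.tr X) X.dim (C.A X) l 2 :=
  Sct.sec_main C hC hX ha h hd hU hL l hl
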